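import Pool.Agent.Q221.NF.Smooth

/-!
# Q1 for smooth varieties over a perfectoid field and over a dense subfield
-/

set_option autoImplicit false

open MvPolynomial Pool.Agent.Y129.TA Pool.Agent.Y129.TB Pool.Agent.Q221.TL

set_option linter.unusedSectionVars false

namespace Pool.Agent.Q221.NF

/-- `X` is the cone over a nonempty smooth closed subscheme of pure dimension `d` of the projective
space `ℙ^n`, defined over `k` by `N` forms of degrees `D 1, ..., D N`. -/
def IsSmoothOver {Ω : Type} [Field Ω] (k : Type) [Field k] [Algebra k Ω] {n N : ℕ}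
    (X : Set (Fin (n + 1) → Ω)) (d : ℕ) (D : Fin N → ℕ) : Prop :=
  d ≤ n ∧ DimGE X d ∧ DimLE X d ∧ ∃ P : Fin N → MvPolynomial (Fin (n + 1)) k,
    (∀ j, (P j).IsHomogeneous (D j)) ∧ X = {y | ∀ j, aeval y (P j) = 0} ∧ SmoothPure Ω P (n - d)

theorem IsSmoothOver.base_change {Ω k K : Type} [Field Ω] [Field k] [Field K] [Algebra k K]
    [Algebra K Ω] [Algebra k Ω] [IsScalarTower k K Ω] {n N : ℕ} {X : Set (Fin (n + 1) → Ω)} {d : ℕ}
    {D : Fin N → ℕ} (h : IsSmoothOver k X d D) : IsSmoothOver K X d D := by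
  obtain ⟨hd, h1, h2, P, hP, hX, hs⟩ := h
  refine ⟨hd, h1, h2, fun j => MvPolynomial.map (algebraMap k K) (P j), fun j => (hP j).map _,
    ?_, fun y hy0 hy => ?_⟩
  · rw [hX]
    ext y
    simp only [Set.mem_ofPred_eq, aeval_map_algebraMap]
  · simp only [aeval_map_algebraMap] at hy
    obtain ⟨s, t, e, h, he, hh, hm, hj⟩ := hs y hy0 hy
    refine ⟨s, t, e, MvPolynomial.map (algebraMap k K) h, he.map _, ?_, ?_, fun j => ?_⟩
    · rw [aeval_map_algebraMap]
      exact hh
    · rw [← map_minor, aeval_map_algebraMap]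
      exact hm
    · obtain ⟨c, hc⟩ := Ideal.mem_span_range_iff_exists_fun.1 (hj j)
      rw [← map_mul, ← hc, map_sum]
      refine Ideal.sum_mem _ fun i _ => ?_
      rw [map_mul]
      exact Ideal.mul_mem_left _ _ (Ideal.subset_span ⟨i, rfl⟩)

variable {p : ℕ} [hp : Fact p.Prime] {C F K E k : Type} [Field C] [Field F] [CharP F p] [Field K]
  [CharZero K] [Field E] [Field k] [Algebra K C] [Algebra E F] [Algebra k K] [Algebra k C]
  [IsScalarTower k K C]

theorem approximable_restrict (T : TiltPair p C F) {ι : Type} {X : Set (ι → C)} {d : ℕ}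
    (h : Approximable T K E X d) : Approximable T k E X d := by
  intro r P D hP hPX ε hε
  obtain ⟨Y, hY, h1, h2, h3⟩ := h r (fun j => MvPolynomial.map (algebraMap k K) (P j)) D
    (fun j => (hP j).map _) (fun j x hx => by rw [aeval_map_algebraMap]; exact hPX j x hx) ε hε
  refine ⟨Y, hY, h1, h2, fun y hy j B hB => ?_⟩
  have h4 := h3 y hy j B hB
  rwa [aeval_map_algebraMap] at h4

theorem transfer [IsAlgClosed C] [IsAlgClosed F] (T : TiltPair p C F)
    (hcomp : IsCompleteFor (T.absK.comp (algebraMap K C).injective))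
    (hdense : ∀ (x : K) (ε : ℝ), 0 < ε →
      ∃ y : k, T.absK (algebraMap K C (algebraMap k K y - x)) ≤ ε)
    (halg : ∀ x : K, IsAlgebraic k x → ∃ y : k, algebraMap k K y = x) {n d N : ℕ}
    {D : Fin N → ℕ} (hD : ∀ j, 0 < D j)
    (hQ : ∀ X : Set (Fin (n + 1) → C), IsSmoothOver k X d D → Approximable T k E X d)
    {X : Set (Fin (n + 1) → C)} (hX : IsSmoothOver K X d D) : Approximable T K E X d := by
  intro r R' DR hR hRX ε hε
  obtain ⟨hdn, hge, hle, P, hPD, rfl, hs⟩ := hX
  have hz : ∀ j, aeval (0 : Fin (n + 1) → C) (P j) = 0 := fun j => by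
    have h1 := smul_aeval (Ω := C) (hPD j) 0 (0 : Fin (n + 1) → C)
    rw [zero_pow (hD j).ne', zero_mul] at h1
    have h2 : (fun i => (0 : C) * (0 : Fin (n + 1) → C) i) = 0 := funext fun i => zero_mul _
    rwa [h2] at h1
  have s1 : ∀ l : Fin r, ∃ δ : ℝ, 0 < δ ∧ ∀ w : Fin (n + 1) → C, (∀ i, T.absK (w i) ≤ 1) →
      (∀ j, T.absK (eval w (MvPolynomial.map (algebraMap K C) (P j))) ≤ δ) →
      T.absK (eval w (MvPolynomial.map (algebraMap K C) (R' l))) ≤ ε := by
    intro l
    refine small T.ultraK _ _ (fun w hw => ?_) hε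
    rw [eval_map_alg]
    refine hRX l w fun j => ?_
    rw [← eval_map_alg]
    exact hw j
  choose δ₁ hδ₁ hs1 using s1
  obtain ⟨δ, hδ, hδ'⟩ := exists_pos_le δ₁ hδ₁
  obtain ⟨P', hP', hge', hle', hs', hcl⟩ := exists_near T.ultraK hcomp hdense halg hD hPD hge hle
    hs hδ
  obtain ⟨Y, hY, hY1, hY2, hY3⟩ := hQ {y | ∀ j, aeval y (P' j) = 0}
    ⟨hdn, hge', hle', P', hP', rfl, hs'⟩ N P' D hP' (fun j x hx => hx j) δ hδ
  refine ⟨Y, hY, hY1, hY2, fun y hy l => ?_⟩
  by_cases hy0 : y = 0
  · rw [hy0]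
    exact tube_zero T hε.le (hRX l 0 hz)
  · obtain ⟨a, ha, ha1, ha2⟩ := exists_normal T hy0
    refine tube_of_normal T (hR l) hε.le ha ha2 ?_
    have h1 := hs1 l (fun i => T.sharp (a * y i)) (fun i => by rw [T.abs_sharp]; exact ha1 i)
      (fun j => by
        refine le_trans ?_ (hδ' l)
        rw [eval_map_alg]
        have h2 := hcl (fun i => T.sharp (a * y i)) (fun i => by rw [T.abs_sharp]; exact ha1 i) j
        have h3 := tube_scale T (hP' j) (hY3 y hy j) ha ha1
        have h4 : aeval (fun i => T.sharp (a * y i)) (P j) =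
            aeval (fun i => T.sharp (a * y i)) (P' j) -
              (aeval (fun i => T.sharp (a * y i)) (P' j) -
                aeval (fun i => T.sharp (a * y i)) (P j)) := by ring
        rw [h4]
        exact (ultra_sub T.ultraK _ _).trans (max_le h3 h2))
    rwa [eval_map_alg] at h1

end Pool.Agent.Q221.NF
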