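import Pool.Agent.Q221.NF.Spec
import Pool.Agent.Q221.TL.Final

/-!
# Specialization of projective varieties: the dimension does not drop
-/

set_option autoImplicit false

open MvPolynomial Pool.Agent.Y129.TA Pool.Agent.Y129.TB Pool.Agent.Q221.TL

set_option linter.unusedSectionVars false

namespace Pool.Agent.Q221.NF

section

attribute [local instance] MvPolynomial.gradedAlgebra

theorem component_mul' {R τ : Type} [CommRing R] {e n : ℕ} {a b : MvPolynomial τ R}
    (hb : b.IsHomogeneous e) :
    homogeneousComponent n (a * b) = if e ≤ n then homogeneousComponent (n - e) a * b else 0 := by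
  have h := DirectSum.coe_decompose_mul_of_right_mem (homogeneousSubmodule τ R) n
    (a := a) (b := b) (i := e) hb
  have h1 : ∀ (f : MvPolynomial τ R) (m : ℕ),
      ((DirectSum.decompose (homogeneousSubmodule τ R) f m : homogeneousSubmodule τ R m) :
        MvPolynomial τ R) = homogeneousComponent m f := fun f m =>
    decomposition.decompose'_apply f m
  rw [h1, h1] at h
  exact h

end

section Mapc

variable {K R σ : Type} [Field K] [CommRing R]

/-- Application of a map to the coefficients of a polynomial. -/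
noncomputable def mapc (ρ : K → R) (P : MvPolynomial σ K) : MvPolynomial σ R :=
  ∑ β ∈ P.support, monomial β (ρ (coeff β P))

theorem coeff_mapc {ρ : K → R} (hρ : ρ 0 = 0) (P : MvPolynomial σ K) (β : σ →₀ ℕ) :
    coeff β (mapc ρ P) = ρ (coeff β P) := by
  classical
  rw [mapc, coeff_sum]
  simp_rw [coeff_monomial]
  by_cases h : β ∈ P.support
  · rw [Finset.sum_eq_single β (fun γ _ h1 => if_neg h1) (fun h1 => absurd h h1), if_pos rfl]
  · rw [notMem_support_iff.1 h, hρ]
    refine Finset.sum_eq_zero fun γ hγ => if_neg ?_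
    rintro rfl
    exact h hγ

theorem hom_mapc {ρ : K → R} (hρ : ρ 0 = 0) {P : MvPolynomial σ K} {D : ℕ}
    (hP : P.IsHomogeneous D) : (mapc ρ P).IsHomogeneous D := by
  intro β hβ
  rw [coeff_mapc hρ] at hβ
  refine hP fun h => hβ ?_
  rw [h, hρ]

theorem map_mapc {ρ : K → R} (hρ : ρ 0 = 0) (α : R →+* K) {P : MvPolynomial σ K}
    (h : ∀ x ∈ P.coeffs, α (ρ x) = x) : MvPolynomial.map α (mapc ρ P) = P := by
  ext β
  rw [coeff_map, coeff_mapc hρ]
  by_cases h0 : coeff β P = 0
  · rw [h0, hρ, map_zero]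
  · exact h _ (coeff_mem_coeffs β h0)

end Mapc

theorem dimGE_spec {k K C R : Type} [Field k] [Infinite k] [Field K] [Field C] [IsAlgClosed C]
    [CommRing R] [Algebra k K] [Algebra K C] [Algebra k C] [IsScalarTower k K C] [Algebra k R]
    (α : R →ₐ[k] K) (β : R →ₐ[k] k) (hαβ : ∀ r, α r = 0 → β r = 0) {ι : Type} [Fintype ι] {N : ℕ}
    (Q : Fin N → MvPolynomial ι R) (D : Fin N → ℕ) (hD : ∀ j, 0 < D j)
    (hQ : ∀ j, (Q j).IsHomogeneous (D j)) {d : ℕ}
    (h : DimGE {x : ι → C | ∀ j, aeval x (MvPolynomial.map (α : R →+* K) (Q j)) = 0} d) :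
    DimGE {x : ι → C | ∀ j, aeval x (MvPolynomial.map (β : R →+* k) (Q j)) = 0} d := by
  classical
  have hX : IsConeOver k {x : ι → C | ∀ j, aeval x (MvPolynomial.map (β : R →+* k) (Q j)) = 0} :=
    over_of_forms _ fun j => ⟨D j, hD j, (hQ j).map _⟩
  have hXc := cone_of_over hX
  by_contra hno
  unfold DimGE at hno
  push Not at hno
  obtain ⟨q₀, hq₀, hq₀'⟩ := hno
  have h1 := dim_le_of_forms hXc q₀ hq₀ (fun y hy hy2 => by
    by_contra hy0
    obtain ⟨j, hj⟩ := hq₀' y hy hy0
    exact hj (hy2 j))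
  obtain ⟨q, hq, hq0⟩ := linear_of_dim k d hXc h1
  choose e he hqe using hq
  -- the forms over `R`
  let G : Fin N ⊕ Fin d → MvPolynomial ι R :=
    Sum.elim Q fun j => MvPolynomial.map (algebraMap k R) (q j)
  let DG : Fin N ⊕ Fin d → ℕ := Sum.elim D e
  have hG : ∀ j, (G j).IsHomogeneous (DG j) := by
    rintro (j | j)
    · exact hQ j
    · exact (hqe j).map _
  have hβk : ((β : R →+* k).comp (algebraMap k R)) = RingHom.id k := by
    ext r
    exact β.commutes r
  have hαk : ((α : R →+* K).comp (algebraMap k R)) = algebraMap k K := by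
    ext r
    exact α.commutes r
  have hβG : ∀ j, MvPolynomial.map (β : R →+* k) (G (Sum.inr j)) = q j := by
    intro j
    change MvPolynomial.map _ (MvPolynomial.map _ (q j)) = q j
    rw [MvPolynomial.map_map, hβk, MvPolynomial.map_id]
  have hαG : ∀ j, MvPolynomial.map (α : R →+* K) (G (Sum.inr j)) =
      MvPolynomial.map (algebraMap k K) (q j) := by
    intro j
    change MvPolynomial.map _ (MvPolynomial.map _ (q j)) = _
    rw [MvPolynomial.map_map, hαk]
  -- Nullstellensatz
  obtain ⟨L, hL0, hL⟩ : ∃ L : ℕ, 0 < L ∧ (Ideal.span (Set.range (X : ι → MvPolynomial ι k))) ^ L ≤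
      Ideal.span (Set.range fun j => MvPolynomial.map (β : R →+* k) (G j)) := by
    have h1 : Ideal.span (Set.range (X : ι → MvPolynomial ι k)) ≤
        (Ideal.span (Set.range fun j => MvPolynomial.map (β : R →+* k) (G j))).radical := by
      rw [Ideal.span_le]
      rintro _ ⟨i, rfl⟩
      rw [SetLike.mem_coe, ← vanishingIdeal_zeroLocus_eq_radical (K := C), mem_vanishingIdeal_iff]
      intro w hw
      rw [mem_zeroLocus_iff] at hw
      have hw0 : w = 0 := by
        refine hq0 w (fun j => ?_) fun j => ?_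
        · exact hw _ (Ideal.subset_span ⟨Sum.inl j, rfl⟩)
        · rw [← hβG j]
          exact hw _ (Ideal.subset_span ⟨Sum.inr j, rfl⟩)
      rw [aeval_X, hw0]
      rfl
    obtain ⟨L, hL⟩ := Ideal.exists_pow_le_of_le_radical_of_fg h1
      ⟨(Set.finite_range (X : ι → MvPolynomial ι k)).toFinset, by simp⟩
    exact ⟨L + 1, Nat.succ_pos L, (Ideal.pow_le_pow_right (Nat.le_succ L)).trans hL⟩
  -- Nakayama's lemma
  let U : Ideal (MvPolynomial ι R) := Ideal.span (Set.range G)
  let mk : MvPolynomial ι R →ₐ[R] (MvPolynomial ι R ⧸ U) := Ideal.Quotient.mkₐ R U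
  let W : Set (MvPolynomial ι R ⧸ U) :=
    (fun γ : ι →₀ ℕ => mk (monomial γ 1)) '' {γ | γ.degree = L}
  let N' : Submodule R (MvPolynomial ι R ⧸ U) := Submodule.span R W
  have hfg : N'.FG := Submodule.fg_span (((Finsupp.finite_of_degree_le L).subset
    fun γ hγ => le_of_eq hγ).image _)
  have hle : N' ≤ RingHom.ker (β : R →+* k) • N' := by
    rw [Submodule.span_le]
    rintro _ ⟨γ, hγ, rfl⟩
    have hγ' : γ.degree = L := hγ
    have h2 : (monomial γ 1 : MvPolynomial ι k) ∈
        Ideal.span (Set.range fun j => MvPolynomial.map (β : R →+* k) (G j)) :=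
      hL (mem_pow_of_homogeneous (isHomogeneous_monomial 1 hγ'))
    obtain ⟨c, hc⟩ := Ideal.mem_span_range_iff_exists_fun.1 h2
    set f : MvPolynomial ι R := homogeneousComponent L
      (monomial γ 1 - ∑ j, MvPolynomial.map (algebraMap k R) (c j) * G j) with hf
    have hf1 : f.IsHomogeneous L := homogeneousComponent_isHomogeneous _ _
    have hf2 : MvPolynomial.map (β : R →+* k) f = 0 := by
      rw [hf, ← homogeneousComponent_map, map_sub, map_sum]
      have h3 : ∀ j, MvPolynomial.map (β : R →+* k)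
          (MvPolynomial.map (algebraMap k R) (c j) * G j) =
          c j * MvPolynomial.map (β : R →+* k) (G j) := by
        intro j
        rw [map_mul, MvPolynomial.map_map, hβk, MvPolynomial.map_id]
      rw [Finset.sum_congr rfl fun j _ => h3 j, hc, map_monomial, map_one, sub_self, map_zero]
    have hf3 : mk f = mk (monomial γ 1) := by
      rw [hf, map_sub, homogeneousComponent_eq_self (isHomogeneous_monomial 1 hγ'),
        map_sum (homogeneousComponent L), map_sub, sub_eq_self, map_sum]
      refine Finset.sum_eq_zero fun j _ => ?_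
      rw [component_mul' (hG j)]
      split_ifs
      · have h4 : mk (G j) = 0 := Ideal.Quotient.eq_zero_iff_mem.2 (Ideal.subset_span ⟨j, rfl⟩)
        rw [map_mul, h4, mul_zero]
      · rw [map_zero]
    rw [SetLike.mem_coe]
    change mk (monomial γ 1) ∈ _
    rw [← hf3, ← support_sum_monomial_coeff f, map_sum]
    refine Submodule.sum_mem _ fun δ hδ => ?_
    have h3 : (monomial δ (coeff δ f) : MvPolynomial ι R) = coeff δ f • monomial δ 1 := by
      rw [smul_monomial, smul_eq_mul, mul_one]
    rw [h3, map_smul]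
    refine Submodule.smul_mem_smul ?_ (Submodule.subset_span ⟨δ, ?_, rfl⟩)
    · rw [RingHom.mem_ker, ← coeff_map, hf2, coeff_zero]
    · have h4 : ∑ i, δ i = L := sum_of_homogeneous hf1 hδ
      have h5 : δ.degree = ∑ i, δ i := by
        rw [Finsupp.degree_apply]
        exact Finset.sum_subset (Finset.subset_univ _) (by simp)
      exact h5.trans h4
  obtain ⟨r, hr, hr0⟩ :=
    Submodule.exists_sub_one_mem_and_smul_eq_zero_of_fg_of_le_smul _ N' hfg hle
  have hβr : β r = 1 := by
    have h2 : (β : R →+* k) (r - 1) = 0 := hr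
    rw [map_sub, map_one, sub_eq_zero] at h2
    exact h2
  have hαr : α r ≠ 0 := fun h2 => by
    have h3 := hαβ r h2
    rw [hβr] at h3
    exact one_ne_zero h3
  -- the contradiction
  obtain ⟨w, hw, hw0, hwq⟩ := h (fun j => MvPolynomial.map (algebraMap k C) (q j))
    fun j => form_map ⟨e j, he j, hqe j⟩
  refine hw0 (funext fun i => ?_)
  have h2 : r • mk (monomial (Finsupp.single i L) 1) = 0 :=
    hr0 _ (Submodule.subset_span ⟨Finsupp.single i L, Finsupp.degree_single i L, rfl⟩)
  have h3 : r • (monomial (Finsupp.single i L) 1 : MvPolynomial ι R) ∈ U := by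
    rw [← Ideal.Quotient.eq_zero_iff_mem]
    rw [← map_smul] at h2
    exact h2
  let ev : MvPolynomial ι R →+* C := (aeval w : MvPolynomial ι K →ₐ[K] C).toRingHom.comp
    (MvPolynomial.map (α : R →+* K))
  have h4 : U ≤ RingHom.ker ev := by
    rw [Ideal.span_le]
    rintro _ ⟨j | j, rfl⟩
    · exact hw j
    · change aeval w (MvPolynomial.map (α : R →+* K) (G (Sum.inr j))) = 0
      rw [hαG, aeval_map_algebraMap, ← eval_map_alg]
      exact hwq j
  have h5 : aeval w (MvPolynomial.map (α : R →+* K)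
      (r • (monomial (Finsupp.single i L) 1 : MvPolynomial ι R))) = 0 := h4 h3
  rw [smul_monomial, smul_eq_mul, mul_one, map_monomial, aeval_monomial,
    Finsupp.prod_single_index (by rw [pow_zero])] at h5
  rcases mul_eq_zero.1 h5 with h6 | h6
  · exact absurd ((map_eq_zero _).1 h6) hαr
  · exact pow_eq_zero_iff hL0.ne' |>.1 h6

theorem close_eval {k K C R ι : Type} [Field k] [Field K] [Field C] [CommRing R] [Algebra K C]
    [Algebra k C] [Fintype ι] {v : AbsoluteValue C ℝ}
    (hv : ∀ x y, v (x + y) ≤ max (v x) (v y)) (α : R →+* K) (β : R →+* k)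
    (f : MvPolynomial ι R) {ε : ℝ} (hε : 0 ≤ ε)
    (hf : ∀ x ∈ f.coeffs, v (algebraMap k C (β x) - algebraMap K C (α x)) ≤ ε) {w : ι → C}
    (hw : ∀ i, v (w i) ≤ 1) :
    v (aeval w (MvPolynomial.map β f) - aeval w (MvPolynomial.map α f)) ≤ ε := by
  have h1 : ∀ {A : Type} [Field A] [Algebra A C] (g : R →+* A),
      aeval w (MvPolynomial.map g f) =
        ∑ d ∈ f.support, algebraMap A C (g (coeff d f)) * ∏ i, w i ^ d i := by
    intro A _ _ g
    rw [aeval_def, eval₂_map, eval₂_eq']
    rfl
  rw [h1, h1, ← Finset.sum_sub_distrib]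
  refine ultra_sum' hv _ _ hε fun γ hγ => ?_
  rw [← sub_mul, map_mul]
  have h2 : v (∏ i, w i ^ γ i) ≤ 1 := by
    rw [map_prod]
    refine Finset.prod_le_one (fun i _ => v.nonneg _) fun i _ => ?_
    rw [map_pow]
    exact pow_le_one₀ (v.nonneg _) (hw i)
  calc _ ≤ ε * 1 := mul_le_mul (hf _ (coeff_mem_coeffs γ (mem_support_iff.1 hγ))) h2
        (v.nonneg _) hε
    _ = ε := mul_one _

end Pool.Agent.Q221.NF
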