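import Pool.Agent.Y129.TA.Zeros

/-!
# Newton's lemma over a complete ultrametric field
-/

set_option autoImplicit false

open Polynomial

namespace Pool.Agent.Q221.NF

variable {K : Type} [Field K]

/-- Every Cauchy sequence converges. -/
def IsCompleteFor (a : AbsoluteValue K ℝ) : Prop :=
  ∀ u : ℕ → K, (∀ ε : ℝ, 0 < ε → ∃ N, ∀ m ≥ N, ∀ n ≥ N, a (u m - u n) ≤ ε) →
    ∃ l, ∀ ε : ℝ, 0 < ε → ∃ N, ∀ n ≥ N, a (u n - l) ≤ ε

section

variable {a : AbsoluteValue K ℝ} (ha : ∀ x y, a (x + y) ≤ max (a x) (a y))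

include ha

theorem ultra_sum' {ι : Type} (s : Finset ι) (f : ι → K) {B : ℝ} (hB : 0 ≤ B)
    (h : ∀ i ∈ s, a (f i) ≤ B) : a (∑ i ∈ s, f i) ≤ B := by
  classical
  induction s using Finset.induction_on with
  | empty => rwa [Finset.sum_empty, AbsoluteValue.map_zero]
  | insert i s hi ih =>
    rw [Finset.sum_insert hi]
    exact (ha _ _).trans (max_le (h i (Finset.mem_insert_self i s))
      (ih fun j hj => h j (Finset.mem_insert_of_mem hj)))

theorem ultra_sub (x y : K) : a (x - y) ≤ max (a x) (a y) := by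
  have := ha x (-y)
  rwa [AbsoluteValue.map_neg, ← sub_eq_add_neg] at this

theorem pow_sub {r : ℝ} (hr : 0 ≤ r) {y z : K} (hy : a y ≤ r) (hz : a z ≤ r) (j : ℕ) :
    a (y ^ (j + 1) - z ^ (j + 1)) ≤ r ^ j * a (y - z) := by
  induction j with
  | zero => simp
  | succ j ih =>
    have h1 : y ^ (j + 1 + 1) - z ^ (j + 1 + 1) =
        y * (y ^ (j + 1) - z ^ (j + 1)) + (y - z) * z ^ (j + 1) := by ring
    rw [h1]
    refine (ha _ _).trans (max_le ?_ ?_)
    · rw [map_mul]
      calc a y * a (y ^ (j + 1) - z ^ (j + 1)) ≤ r * (r ^ j * a (y - z)) :=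
            mul_le_mul hy ih (a.nonneg _) hr
        _ = r ^ (j + 1) * a (y - z) := by ring
    · rw [map_mul, map_pow, mul_comm]
      exact mul_le_mul_of_nonneg_right (pow_le_pow_left₀ (a.nonneg _) hz _) (a.nonneg _)

theorem eval_sub {h : K[X]} {B : ℝ} (hB : 0 ≤ B) (hc : ∀ j, a (h.coeff j) ≤ B) {r : ℝ}
    (hr : 0 ≤ r) (hr1 : r ≤ 1) (m : ℕ) (hm : ∀ j ≤ m, h.coeff j = 0) {y z : K} (hy : a y ≤ r)
    (hz : a z ≤ r) : a (h.eval y - h.eval z) ≤ B * r ^ m * a (y - z) := by
  rw [eval_eq_sum_range, eval_eq_sum_range, ← Finset.sum_sub_distrib]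
  refine ultra_sum' ha _ _ (by have := a.nonneg (y - z); positivity) ?_
  intro j _
  rw [← mul_sub, map_mul]
  rcases Nat.lt_or_ge m j with h1 | h1
  · obtain ⟨i, rfl⟩ : ∃ i, j = i + 1 := ⟨j - 1, by omega⟩
    calc a (h.coeff (i + 1)) * a (y ^ (i + 1) - z ^ (i + 1)) ≤ B * (r ^ i * a (y - z)) :=
          mul_le_mul (hc _) (pow_sub ha hr hy hz i) (a.nonneg _) hB
      _ ≤ B * (r ^ m * a (y - z)) :=
          mul_le_mul_of_nonneg_left (mul_le_mul_of_nonneg_right
            (pow_le_pow_of_le_one hr hr1 (by omega)) (a.nonneg _)) hB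
      _ = _ := by ring
  · rw [hm j h1, map_zero, zero_mul]
    have := a.nonneg (y - z)
    positivity

/-- Newton's lemma at `0`. -/
theorem newton_zero (hcomp : IsCompleteFor a) {h : K[X]} {B r : ℝ} (hB : 0 ≤ B)
    (hc : ∀ j, a (h.coeff j) ≤ B) (hr : 0 < r) (hr1 : r ≤ 1) (h1 : 0 < a (h.coeff 1))
    (h0 : a (h.coeff 0) ≤ a (h.coeff 1) * r) (hBr : B * r ≤ a (h.coeff 1) / 2) :
    ∃ y, h.eval y = 0 ∧ a y ≤ r := by
  have hne : h.coeff 1 ≠ 0 := fun h' => by rw [h', map_zero] at h1; exact lt_irrefl _ h1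
  -- the part of degree at least two
  set v : K[X] := h - C (h.coeff 0) - C (h.coeff 1) * X with hv
  have hvc : ∀ j, a (v.coeff j) ≤ B := by
    intro j
    rw [hv, coeff_sub, coeff_sub, coeff_C, coeff_C_mul, coeff_X]
    rcases j with _ | _ | j
    · simp [hB]
    · simp [hB]
    · have : ¬ (1 = j + 1 + 1) := by omega
      rw [if_neg (Nat.succ_ne_zero _), if_neg this, mul_zero, sub_zero, sub_zero]
      exact hc _
  have hv1 : ∀ j ≤ 1, v.coeff j = 0 := by
    intro j hj
    rw [hv, coeff_sub, coeff_sub, coeff_C, coeff_C_mul, coeff_X]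
    rcases j with _ | _ | j
    · simp
    · simp
    · omega
  have hv0 : v.eval 0 = 0 := by
    rw [← coeff_zero_eq_eval_zero]
    exact hv1 0 (by omega)
  have hev : ∀ y, h.eval y = h.coeff 0 + h.coeff 1 * y + v.eval y := by
    intro y
    rw [hv]
    simp only [Polynomial.eval_sub, eval_C, eval_mul, eval_X]
    ring
  let T : K → K := fun y => -(h.coeff 0 + v.eval y) / h.coeff 1
  have hT1 : ∀ y, a y ≤ r → a (T y) ≤ r := by
    intro y hy
    simp only [T]
    rw [map_div₀, AbsoluteValue.map_neg, div_le_iff₀ h1, mul_comm]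
    refine (ha _ _).trans (max_le h0 ?_)
    have h3 := eval_sub ha hB hvc hr.le hr1 1 hv1 hy (show a (0 : K) ≤ r by rw [map_zero]; exact hr.le)
    rw [hv0, sub_zero, sub_zero, pow_one] at h3
    refine h3.trans ?_
    calc B * r * a y ≤ a (h.coeff 1) / 2 * r := mul_le_mul hBr hy (a.nonneg _) (by positivity)
      _ ≤ a (h.coeff 1) * r := by nlinarith
  have hT2 : ∀ y z, a y ≤ r → a z ≤ r → a (T y - T z) ≤ 1 / 2 * a (y - z) := by
    intro y z hy hz
    have h3 : T y - T z = -(v.eval y - v.eval z) / h.coeff 1 := by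
      simp only [T]
      ring
    rw [h3, map_div₀, AbsoluteValue.map_neg, div_le_iff₀ h1]
    have h4 := eval_sub ha hB hvc hr.le hr1 1 hv1 hy hz
    rw [pow_one] at h4
    refine h4.trans ?_
    calc B * r * a (y - z) ≤ a (h.coeff 1) / 2 * a (y - z) :=
          mul_le_mul_of_nonneg_right hBr (a.nonneg _)
      _ = _ := by ring
  let u : ℕ → K := fun n => T^[n] 0
  have hu1 : ∀ n, a (u n) ≤ r := by
    intro n
    induction n with
    | zero => simp only [u, Function.iterate_zero, id_eq, map_zero]; exact hr.le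
    | succ n ih =>
      simp only [u, Function.iterate_succ', Function.comp_apply]
      exact hT1 _ ih
  have hus : ∀ n, u (n + 1) = T (u n) := fun n => by
    simp only [u, Function.iterate_succ', Function.comp_apply]
  have hu2 : ∀ n, a (u (n + 1) - u n) ≤ (1 / 2) ^ n := by
    intro n
    induction n with
    | zero =>
      rw [pow_zero]
      have h3 : u 0 = 0 := rfl
      rw [h3, sub_zero]
      exact (hu1 1).trans hr1
    | succ n ih =>
      rw [hus (n + 1), hus n]
      have h4 : u (n + 1) = T (u n) := hus n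
      rw [← h4]
      have h5 := hT2 (u (n + 1)) (u n) (hu1 _) (hu1 _)
      rw [hus n] at h5 ⊢
      refine h5.trans ?_
      rw [pow_succ, mul_comm]
      rw [← hus n]
      exact mul_le_mul_of_nonneg_right ih (by norm_num)
  have hu3 : ∀ N m, a (u (N + m) - u N) ≤ (1 / 2) ^ N := by
    intro N m
    induction m with
    | zero => rw [add_zero, sub_self, map_zero]; positivity
    | succ m ih =>
      have h3 : u (N + (m + 1)) - u N = (u (N + m + 1) - u (N + m)) + (u (N + m) - u N) := by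
        rw [← add_assoc]
        ring
      rw [h3]
      refine (ha _ _).trans (max_le ((hu2 _).trans ?_) ih)
      exact pow_le_pow_of_le_one (by norm_num) (by norm_num) (by omega)
  obtain ⟨l, hl⟩ := hcomp u (fun ε hε => by
    obtain ⟨N, hN⟩ := exists_pow_lt_of_lt_one hε (show (1 / 2 : ℝ) < 1 by norm_num)
    refine ⟨N, fun m hm n hn => ?_⟩
    obtain ⟨i, rfl⟩ := Nat.exists_eq_add_of_le hm
    obtain ⟨j, rfl⟩ := Nat.exists_eq_add_of_le hn
    have h3 : u (N + i) - u (N + j) = (u (N + i) - u N) - (u (N + j) - u N) := by ring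
    rw [h3]
    exact (ultra_sub ha _ _).trans (max_le ((hu3 _ _).trans hN.le) ((hu3 _ _).trans hN.le)))
  have hlr : a l ≤ r := by
    obtain ⟨N, hN⟩ := hl r hr
    have h3 : l = u N - (u N - l) := by ring
    rw [h3]
    exact (ultra_sub ha _ _).trans (max_le (hu1 N) (hN N le_rfl))
  refine ⟨l, ?_, hlr⟩
  by_contra hne0
  have hpos : 0 < a (h.eval l) := a.pos hne0
  have hb : ∀ n, a (h.eval l) ≤ max (B * a (l - u n)) (a (h.coeff 1) * (1 / 2) ^ n) := by
    intro n
    have h3 : h.eval l = (h.eval l - h.eval (u n)) + h.eval (u n) := by ring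
    rw [h3]
    refine (ha _ _).trans (max_le_max ?_ ?_)
    · have h5 : a ((h - C (h.coeff 0)).eval l - (h - C (h.coeff 0)).eval (u n)) ≤
          B * 1 ^ 0 * a (l - u n) := by
        refine eval_sub ha hB (fun j => ?_) zero_le_one le_rfl 0 (fun j hj => ?_)
          (hlr.trans hr1) ((hu1 n).trans hr1)
        · rw [coeff_sub, coeff_C]
          rcases j with _ | j
          · simp [hB]
          · simp only [Nat.succ_ne_zero, if_false, sub_zero]
            exact hc _
        · rw [Nat.le_zero.1 hj]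
          simp
      rw [pow_zero, mul_one] at h5
      have h6 : (h - C (h.coeff 0)).eval l - (h - C (h.coeff 0)).eval (u n) =
          h.eval l - h.eval (u n) := by
        simp only [Polynomial.eval_sub, eval_C]
        ring
      rwa [h6] at h5
    · have h4 : h.eval (u n) = h.coeff 1 * (u n - u (n + 1)) := by
        rw [hus n, hev]
        simp only [T]
        field_simp
        ring
      rw [h4, map_mul]
      refine mul_le_mul_of_nonneg_left ?_ h1.le
      rw [AbsoluteValue.map_sub]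
      exact hu2 n
  obtain ⟨N₁, hN₁⟩ := hl (a (h.eval l) / (2 * (B + 1))) (by positivity)
  obtain ⟨N₂, hN₂⟩ := exists_pow_lt_of_lt_one (show 0 < a (h.eval l) / (2 * a (h.coeff 1)) by
    positivity) (show (1 / 2 : ℝ) < 1 by norm_num)
  have h3 := hb (max N₁ N₂)
  rcases le_max_iff.1 h3 with h4 | h4
  · have h5 := hN₁ (max N₁ N₂) (le_max_left _ _)
    rw [AbsoluteValue.map_sub] at h5
    have h6 : B * a (l - u (max N₁ N₂)) ≤ a (h.eval l) / 2 := by
      calc B * a (l - u (max N₁ N₂)) ≤ (B + 1) * (a (h.eval l) / (2 * (B + 1))) :=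
            mul_le_mul (by linarith) h5 (a.nonneg _) (by linarith)
        _ = a (h.eval l) / 2 := by field_simp
    linarith
  · have h5 : ((1 : ℝ) / 2) ^ max N₁ N₂ ≤ (1 / 2) ^ N₂ :=
      pow_le_pow_of_le_one (by norm_num) (by norm_num) (le_max_right _ _)
    have h6 : a (h.coeff 1) * (1 / 2) ^ max N₁ N₂ ≤ a (h.eval l) / 2 := by
      calc a (h.coeff 1) * (1 / 2) ^ max N₁ N₂ ≤
            a (h.coeff 1) * (a (h.eval l) / (2 * a (h.coeff 1))) :=
            mul_le_mul_of_nonneg_left (h5.trans hN₂.le) h1.le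
        _ = a (h.eval l) / 2 := by field_simp
    linarith

end

end Pool.Agent.Q221.NF
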