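import Pool.Agent.Q221.NF.Newton

/-!
# Continuity of simple roots
-/

set_option autoImplicit false

open Polynomial

namespace Pool.Agent.Q221.NF

variable {K : Type} [Field K] {a : AbsoluteValue K ℝ}
  (ha : ∀ x y, a (x + y) ≤ max (a x) (a y))

include ha

theorem abs_nat_le (m : ℕ) : a (m : K) ≤ 1 := by
  induction m with
  | zero => rw [Nat.cast_zero, map_zero]; exact zero_le_one
  | succ m ih =>
    rw [Nat.cast_succ]
    exact (ha _ _).trans (max_le ih (by rw [map_one]))

theorem taylor_bound {n : ℕ} {D : K[X]} (hD : D.natDegree ≤ n) {δ : ℝ} (hδ : 0 ≤ δ)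
    (h : ∀ j, a (D.coeff j) ≤ δ) (s : K) {S : ℝ} (hS : 1 ≤ S) (hs : a s ≤ S) (j : ℕ) :
    a ((D.comp (X + C s)).coeff j) ≤ δ * S ^ n := by
  have h1 : D.comp (X + C s) = ∑ i ∈ Finset.range (n + 1), C (D.coeff i) * (X + C s) ^ i := by
    rw [comp, eval₂_eq_sum_range' C (Nat.lt_succ_of_le hD)]
  rw [h1, finsetSum_coeff]
  refine ultra_sum' ha _ _ (by positivity) fun i hi => ?_
  rw [coeff_C_mul, coeff_X_add_C_pow, map_mul, map_mul, map_pow]
  have hi' : i ≤ n := Nat.lt_succ_iff.1 (Finset.mem_range.1 hi)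
  have h2 : a s ^ (i - j) ≤ S ^ n :=
    (pow_le_pow_left₀ (a.nonneg _) hs _).trans (pow_le_pow_right₀ hS (by omega))
  have h3 : a s ^ (i - j) * a ((i.choose j : ℕ) : K) ≤ S ^ n := by
    calc _ ≤ a s ^ (i - j) * 1 :=
          mul_le_mul_of_nonneg_left (abs_nat_le ha _) (pow_nonneg (a.nonneg _) _)
      _ ≤ S ^ n := by rwa [mul_one]
  exact mul_le_mul (h i) h3 (mul_nonneg (pow_nonneg (a.nonneg _) _) (a.nonneg _)) hδ

/-- Simple roots depend continuously on the polynomial. -/
theorem root_near (hcomp : IsCompleteFor a) {n : ℕ} {G : K[X]} (hG : G.natDegree ≤ n) {s : K}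
    (h0 : G.eval s = 0) (h1 : (derivative G).eval s ≠ 0) {ε : ℝ} (hε : 0 < ε) :
    ∃ δ : ℝ, 0 < δ ∧ ∀ G₁ : K[X], G₁.natDegree ≤ n → (∀ j, a (G₁.coeff j - G.coeff j) ≤ δ) →
      ∃ s', G₁.eval s' = 0 ∧ a (s' - s) ≤ ε := by
  set S : ℝ := max 1 (a s) with hS
  have hS1 : 1 ≤ S := le_max_left _ _
  have hSp : 0 < S ^ n := by positivity
  -- a bound for the coefficients
  obtain ⟨B₀, hB₀, hBG⟩ : ∃ B₀ : ℝ, 0 ≤ B₀ ∧ ∀ j, a ((G.comp (X + C s)).coeff j) ≤ B₀ := by
    refine ⟨(∑ i ∈ G.support, a (G.coeff i)) * S ^ n, ?_, fun j => ?_⟩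
    · have := Finset.sum_nonneg (s := G.support) fun i _ => a.nonneg (G.coeff i)
      positivity
    · have h2 := Finset.sum_nonneg (s := G.support) fun i _ => a.nonneg (G.coeff i)
      refine taylor_bound ha hG h2 (fun i => ?_) s hS1 (le_max_right _ _) j
      by_cases hi : i ∈ G.support
      · exact Finset.single_le_sum (f := fun i => a (G.coeff i)) (fun i _ => a.nonneg _) hi
      · rw [notMem_support_iff.1 hi, map_zero]
        exact h2
  have e0 : (G.comp (X + C s)).coeff 0 = 0 := by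
    rw [coeff_zero_eq_eval_zero, eval_comp, eval_add, eval_X, eval_C, zero_add, h0]
  have e1 : ∀ H : K[X], (H.comp (X + C s)).coeff 1 = (derivative H).eval s := by
    intro H
    have h2 := taylor_coeff_one s H
    rw [taylor_apply] at h2
    exact h2
  set c₁ : ℝ := a ((derivative G).eval s) with hc₁
  have hc₁0 : 0 < c₁ := a.pos h1
  set r : ℝ := min (min 1 ε) (c₁ / (2 * (B₀ + 1))) with hr
  have hr0 : 0 < r := lt_min (lt_min one_pos hε) (by positivity)
  refine ⟨min (min 1 (c₁ / 2)) (c₁ * r) / S ^ n, by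
    have : 0 < min (min 1 (c₁ / 2)) (c₁ * r) := lt_min (lt_min one_pos (by positivity))
      (by positivity)
    positivity, fun G₁ hG₁ hcl => ?_⟩
  have hcl' : ∀ j, a ((G₁.comp (X + C s)).coeff j - (G.comp (X + C s)).coeff j) ≤
      min (min 1 (c₁ / 2)) (c₁ * r) := by
    intro j
    rw [← coeff_sub, ← sub_comp]
    refine (taylor_bound ha (n := n) ((natDegree_sub_le _ _).trans (max_le hG₁ hG))
      (δ := min (min 1 (c₁ / 2)) (c₁ * r) / S ^ n) ?_ (fun i => ?_) s hS1 (le_max_right _ _) j).trans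
      ?_
    · have : 0 < min (min 1 (c₁ / 2)) (c₁ * r) := lt_min (lt_min one_pos (by positivity))
        (by positivity)
      positivity
    · rw [coeff_sub]
      exact hcl i
    · rw [div_mul_cancel₀ _ hSp.ne']
  have k1 : c₁ ≤ a ((G₁.comp (X + C s)).coeff 1) := by
    have h2 := hcl' 1
    rw [e1 G] at h2
    have h3 : a ((G₁.comp (X + C s)).coeff 1 - (derivative G).eval s) ≤ c₁ / 2 :=
      h2.trans ((min_le_left _ _).trans (min_le_right _ _))
    have h4 : (derivative G).eval s = (G₁.comp (X + C s)).coeff 1 -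
        ((G₁.comp (X + C s)).coeff 1 - (derivative G).eval s) := by ring
    have h5 : c₁ ≤ max (a ((G₁.comp (X + C s)).coeff 1))
        (a ((G₁.comp (X + C s)).coeff 1 - (derivative G).eval s)) := by
      have h6 := ultra_sub ha ((G₁.comp (X + C s)).coeff 1)
        ((G₁.comp (X + C s)).coeff 1 - (derivative G).eval s)
      rwa [← h4] at h6
    rcases le_max_iff.1 h5 with h6 | h6
    · exact h6
    · linarith
  obtain ⟨y, hy, hyr⟩ := newton_zero ha hcomp (h := G₁.comp (X + C s)) (B := B₀ + 1) (r := r)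
    (by linarith) (fun j => by
      have h2 : (G₁.comp (X + C s)).coeff j = ((G₁.comp (X + C s)).coeff j -
        (G.comp (X + C s)).coeff j) + (G.comp (X + C s)).coeff j := by ring
      rw [h2]
      refine (ha _ _).trans (max_le ?_ ((hBG j).trans (by linarith)))
      exact (hcl' j).trans ((min_le_left _ _).trans ((min_le_left _ _).trans (by linarith))))
    hr0 ((min_le_left _ _).trans (min_le_left _ _)) (hc₁0.trans_le k1) (by
      have h2 := hcl' 0
      rw [e0, sub_zero] at h2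
      exact h2.trans ((min_le_right _ _).trans (mul_le_mul_of_nonneg_right k1 hr0.le))) (by
      have h2 : r ≤ c₁ / (2 * (B₀ + 1)) := min_le_right _ _
      have h3 : (B₀ + 1) * r ≤ c₁ / 2 := by
        calc (B₀ + 1) * r ≤ (B₀ + 1) * (c₁ / (2 * (B₀ + 1))) :=
              mul_le_mul_of_nonneg_left h2 (by linarith)
          _ = c₁ / 2 := by field_simp
      exact h3.trans (by linarith))
  refine ⟨y + s, ?_, ?_⟩
  · rw [eval_comp, eval_add, eval_X, eval_C] at hy
    exact hy
  · rw [add_sub_cancel_right]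
    exact hyr.trans ((min_le_left _ _).trans (min_le_right _ _))

end Pool.Agent.Q221.NF
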