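import Pool.Agent.Q221.NF.Geom

/-!
# Approximation of smooth projective varieties by smooth varieties over a dense subfield
-/

set_option autoImplicit false

open MvPolynomial Pool.Agent.Y129.TA Pool.Agent.Y129.TB Pool.Agent.Q221.TL

set_option linter.unusedSectionVars false

namespace Pool.Agent.Q221.NF

/-- The minor of the Jacobian matrix of the `P j` with rows `s` and columns `t`. -/
noncomputable def minor {k ι : Type} [CommRing k] {N m : ℕ} (P : Fin N → MvPolynomial ι k)
    (s : Fin m → Fin N) (t : Fin m → ι) : MvPolynomial ι k :=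
  Matrix.det (Matrix.of fun i j => pderiv (t j) (P (s i)))

/-- The closed subscheme of projective space defined by the forms `P j` is smooth of pure codimension
`m`: near each of its points `y` it is defined by `m` of the forms, a minor of the Jacobian matrix of
which does not vanish at `y`. -/
def SmoothPure (Ω : Type) [Field Ω] {k : Type} [Field k] [Algebra k Ω] {ι : Type} {N : ℕ}
    (P : Fin N → MvPolynomial ι k) (m : ℕ) : Prop :=
  ∀ y : ι → Ω, y ≠ 0 → (∀ j, aeval y (P j) = 0) →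
    ∃ (s : Fin m → Fin N) (t : Fin m → ι) (e : ℕ) (h : MvPolynomial ι k), h.IsHomogeneous e ∧
      aeval y h ≠ 0 ∧ aeval y (minor P s t) ≠ 0 ∧
        ∀ j, h * P j ∈ Ideal.span (Set.range fun i => P (s i))

theorem map_minor {k k' ι : Type} [CommRing k] [CommRing k'] (g : k →+* k') {N m : ℕ}
    (P : Fin N → MvPolynomial ι k) (s : Fin m → Fin N) (t : Fin m → ι) :
    MvPolynomial.map g (minor P s t) = minor (fun j => MvPolynomial.map g (P j)) s t := by
  rw [minor, minor, RingHom.map_det]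
  congr 1
  ext1 i j
  simp only [RingHom.mapMatrix_apply, Matrix.map_apply, Matrix.of_apply]
  exact pderiv_map.symm

theorem minor_smul {k Ω ι : Type} [Field k] [Field Ω] [Algebra k Ω] [Fintype ι] {N m : ℕ}
    {P : Fin N → MvPolynomial ι k} {D : Fin N → ℕ} (hP : ∀ j, (P j).IsHomogeneous (D j))
    (s : Fin m → Fin N) (t : Fin m → ι) (a : Ω) (y : ι → Ω) :
    aeval (fun i => a * y i) (minor P s t) =
      (∏ i, a ^ (D (s i) - 1)) * aeval y (minor P s t) := by
  have h1 : ∀ w : ι → Ω, aeval w (minor P s t) =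
      Matrix.det (Matrix.of fun i j => aeval w (pderiv (t j) (P (s i)))) := by
    intro w
    have h2 := RingHom.map_det (aeval w : MvPolynomial ι k →ₐ[k] Ω).toRingHom
      (Matrix.of fun i j => pderiv (t j) (P (s i)))
    exact h2
  rw [h1, h1, ← Matrix.det_mul_column]
  congr 1
  ext1 i j
  simp only [Matrix.of_apply]
  exact smul_aeval ((hP (s i)).pderiv) a y

theorem small_coord {C : Type} [Field C] [IsAlgClosed C] {v : AbsoluteValue C ℝ}
    (hv : ∀ x y, v (x + y) ≤ max (v x) (v y)) {ι κ : Type} [Fintype ι] [Fintype κ]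
    (E : κ → MvPolynomial ι C) (hE : ∀ w, (∀ k, eval w (E k) = 0) → w = 0) :
    ∃ δ : ℝ, 0 < δ ∧ ∀ w : ι → C, (∀ i, v (w i) ≤ 1) → (∀ k, v (eval w (E k)) ≤ δ) →
      ∀ i, v (w i) ≤ 1 / 2 := by
  have s1 : ∀ t : ι, ∃ δ : ℝ, 0 < δ ∧ ∀ w : ι → C, (∀ i, v (w i) ≤ 1) →
      (∀ k, v (eval w (E k)) ≤ δ) → v (eval w (MvPolynomial.X t)) ≤ 1 / 2 := by
    intro t
    refine small hv _ _ (fun w hw => ?_) (by norm_num)
    rw [eval_X, hE w hw]
    rfl
  choose δ₁ hδ₁ hs1 using s1
  obtain ⟨δ, hδ, hδ'⟩ := exists_pos_le δ₁ hδ₁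
  refine ⟨δ, hδ, fun w hw hE i => ?_⟩
  have h1 := hs1 i w hw fun k => (hE k).trans (hδ' i)
  rwa [eval_X] at h1

theorem exists_normal' {C : Type} [Field C] (v : AbsoluteValue C ℝ) {τ : Type} [Fintype τ]
    {w : τ → C} (hw : w ≠ 0) :
    ∃ a : C, a ≠ 0 ∧ (∀ t, v (a * w t) ≤ 1) ∧ ∃ t, v (a * w t) = 1 := by
  have hne : Nonempty τ := by
    by_contra h
    rw [not_nonempty_iff] at h
    exact hw (funext fun t => h.elim t)
  obtain ⟨t, ht⟩ := Finite.exists_max fun t => v (w t)
  have hwt : w t ≠ 0 := by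
    intro h
    refine hw (funext fun s => ?_)
    have h1 := ht s
    rw [h, map_zero] at h1
    exact v.eq_zero.1 (le_antisymm h1 (v.nonneg _))
  have hp : 0 < v (w t) := v.pos hwt
  refine ⟨(w t)⁻¹, inv_ne_zero hwt, fun s => ?_, t, ?_⟩
  · rw [map_mul, map_inv₀, inv_mul_le_iff₀ hp, mul_one]
    exact ht s
  · rw [inv_mul_cancel₀ hwt, map_one]

theorem ker_transfer {R k K ι : Type} [CommRing R] [Field k] [Field K] {α : R →+* K} {β : R →+* k}
    (hαβ : ∀ r, α r = 0 → β r = 0) {f : MvPolynomial ι R} (h : MvPolynomial.map α f = 0) :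
    MvPolynomial.map β f = 0 := by
  ext γ
  rw [coeff_map, coeff_zero]
  refine hαβ _ ?_
  have h1 := congrArg (coeff γ) h
  rwa [coeff_map, coeff_zero] at h1

theorem exists_spec' {k K : Type} [Field k] [Field K] [CharZero K] [Algebra k K]
    {a : AbsoluteValue K ℝ} (ha : ∀ x y, a (x + y) ≤ max (a x) (a y)) (hcomp : IsCompleteFor a)
    (hdense : ∀ (x : K) (ε : ℝ), 0 < ε → ∃ y : k, a (algebraMap k K y - x) ≤ ε)
    (halg : ∀ x : K, IsAlgebraic k x → ∃ y : k, algebraMap k K y = x) (S : Finset K) :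
    ∃ (R : Type) (_ : CommRing R) (_ : Algebra k R) (α : R →ₐ[k] K) (ρ : K → R),
      ρ 0 = 0 ∧ (∀ x ∈ S, α (ρ x) = x) ∧ ∀ (T : Finset R) (ε : ℝ), 0 < ε →
        ∃ β : R →ₐ[k] k, (∀ r, α r = 0 → β r = 0) ∧
          ∀ r ∈ T, a (algebraMap k K (β r) - α r) ≤ ε := by
  obtain ⟨M, c, ρ, hρ0, hρ, hspec⟩ := exists_spec ha hcomp hdense halg S
  refine ⟨MvPolynomial (Fin M) k, inferInstance, inferInstance, aeval c, ρ, hρ0, hρ,
    fun T ε hε => ?_⟩
  obtain ⟨c', h1, h2⟩ := hspec T ε hε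
  exact ⟨aeval c', h1, h2⟩

/-- A smooth variety over `K` can be approximated by smooth varieties over `k`. -/
theorem exists_near {k K C : Type} [Field k] [Field K] [CharZero K] [Field C] [IsAlgClosed C]
    [Algebra k K] [Algebra K C] [Algebra k C] [IsScalarTower k K C] {v : AbsoluteValue C ℝ}
    (hv : ∀ x y, v (x + y) ≤ max (v x) (v y))
    (hcomp : IsCompleteFor (v.comp (algebraMap K C).injective))
    (hdense : ∀ (x : K) (ε : ℝ), 0 < ε → ∃ y : k, v (algebraMap K C (algebraMap k K y - x)) ≤ ε)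
    (halg : ∀ x : K, IsAlgebraic k x → ∃ y : k, algebraMap k K y = x)
    {ι : Type} [Fintype ι] {N m d : ℕ} {P : Fin N → MvPolynomial ι K} {D : Fin N → ℕ}
    (hD : ∀ j, 0 < D j) (hP : ∀ j, (P j).IsHomogeneous (D j))
    (h1 : DimGE {x : ι → C | ∀ j, aeval x (P j) = 0} d)
    (h2 : DimLE {x : ι → C | ∀ j, aeval x (P j) = 0} d) (h3 : SmoothPure C P m)
    {ε : ℝ} (hε : 0 < ε) :
    ∃ P' : Fin N → MvPolynomial ι k, (∀ j, (P' j).IsHomogeneous (D j)) ∧
      DimGE {x : ι → C | ∀ j, aeval x (P' j) = 0} d ∧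
      DimLE {x : ι → C | ∀ j, aeval x (P' j) = 0} d ∧ SmoothPure C P' m ∧
      ∀ w : ι → C, (∀ i, v (w i) ≤ 1) → ∀ j, v (aeval w (P' j) - aeval w (P j)) ≤ ε := by
  classical
  obtain ⟨q, hq, hq0⟩ := h2
  -- a finite family of products of minors and denominators
  let 𝓕 : Set (MvPolynomial ι K) := {f | ∃ (s : Fin m → Fin N) (t : Fin m → ι) (e : ℕ)
    (h : MvPolynomial ι K), h.IsHomogeneous e ∧
      (∀ j, h * P j ∈ Ideal.span (Set.range fun i => P (s i))) ∧ f = h * minor P s t}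
  obtain ⟨F₀, hF₀, hspan⟩ := (Submodule.fg_span_iff_fg_span_finset_subset 𝓕).1
    (IsNoetherian.noetherian (Submodule.span (MvPolynomial ι K) 𝓕))
  have hzero : ∀ y : ι → C, (∀ j, aeval y (P j) = 0) → (∀ f ∈ F₀, aeval y f = 0) → y = 0 := by
    intro y hy hy2
    by_contra hy0
    obtain ⟨s, t, e, h, he, hh, hm, hs⟩ := h3 y hy0 hy
    have h4 : h * minor P s t ∈
        Submodule.span (MvPolynomial ι K) (F₀ : Set (MvPolynomial ι K)) := by
      rw [← hspan]
      exact Submodule.subset_span ⟨s, t, e, h, he, hs, rfl⟩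
    have h5 : Submodule.span (MvPolynomial ι K) (F₀ : Set (MvPolynomial ι K)) ≤
        (RingHom.ker (aeval y : MvPolynomial ι K →ₐ[K] C) : Ideal _) :=
      Submodule.span_le.2 fun f hf => hy2 f hf
    have h6 : aeval y (h * minor P s t) = 0 := h5 h4
    rw [map_mul] at h6
    exact (mul_ne_zero hh hm) h6
  choose s t e h he hs hf using fun f : F₀ => hF₀ f.2
  choose E' hE' using fun (f : F₀) (j : Fin N) => Ideal.mem_span_range_iff_exists_fun.1 (hs f j)
  -- estimates
  obtain ⟨δ₁, hδ₁, hδ₁'⟩ := small_coord hv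
    (Sum.elim (fun j => MvPolynomial.map (algebraMap K C) (P j)) q) (fun w hw => by
      refine hq0 w (fun j => ?_) fun j => hw (Sum.inr j)
      rw [← eval_map_alg]
      exact hw (Sum.inl j))
  obtain ⟨δ₂, hδ₂, hδ₂'⟩ := small_coord hv
    (Sum.elim (fun j => MvPolynomial.map (algebraMap K C) (P j))
      fun f : F₀ => MvPolynomial.map (algebraMap K C) f.1) (fun w hw => by
      refine hzero w (fun j => ?_) fun f hf => ?_
      · rw [← eval_map_alg]
        exact hw (Sum.inl j)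
      · rw [← eval_map_alg]
        exact hw (Sum.inr ⟨f, hf⟩))
  -- the specialization
  obtain ⟨R, iR, iA, α, ρ, hρ0, hρ, hspec⟩ := exists_spec' (k := k)
    (a := v.comp (algebraMap K C).injective) (fun x y => by
      change v (algebraMap K C (x + y)) ≤ max (v (algebraMap K C x)) (v (algebraMap K C y))
      rw [map_add]
      exact hv _ _) hcomp hdense halg
    ((Finset.univ.biUnion fun j => (P j).coeffs) ∪
      (Finset.univ.biUnion fun f : F₀ => (h f).coeffs) ∪
      (Finset.univ.biUnion fun x : F₀ × Fin N × Fin m => (E' x.1 x.2.1 x.2.2).coeffs))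
  have hαP : ∀ j, MvPolynomial.map (α : R →+* K) (mapc ρ (P j)) = P j := fun j =>
    map_mapc hρ0 _ fun x hx => hρ x (Finset.mem_union_left _ (Finset.mem_union_left _
      (Finset.mem_biUnion.2 ⟨j, Finset.mem_univ _, hx⟩)))
  have hαh : ∀ f, MvPolynomial.map (α : R →+* K) (mapc ρ (h f)) = h f := fun f =>
    map_mapc hρ0 _ fun x hx => hρ x (Finset.mem_union_left _ (Finset.mem_union_right _
      (Finset.mem_biUnion.2 ⟨f, Finset.mem_univ _, hx⟩)))
  have hαE : ∀ f j i, MvPolynomial.map (α : R →+* K) (mapc ρ (E' f j i)) = E' f j i := fun f j i =>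
    map_mapc hρ0 _ fun x hx => hρ x (Finset.mem_union_right _
      (Finset.mem_biUnion.2 ⟨(f, j, i), Finset.mem_univ _, hx⟩))
  obtain ⟨ft, hft0⟩ : ∃ ft : F₀ → MvPolynomial ι R, ∀ f,
      ft f = mapc ρ (h f) * minor (fun j => mapc ρ (P j)) (s f) (t f) := ⟨_, fun _ => rfl⟩
  have hαf : ∀ f, MvPolynomial.map (α : R →+* K) (ft f) = f.1 := by
    intro f
    rw [hft0, map_mul, map_minor, hαh]
    simp only [hαP]
    exact (hf f).symm
  obtain ⟨β, hc1, hc2⟩ := hspec ((Finset.univ.biUnion fun j => (mapc ρ (P j)).coeffs) ∪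
    (Finset.univ.biUnion fun f => (ft f).coeffs)) (min ε (min δ₁ δ₂))
    (lt_min hε (lt_min hδ₁ hδ₂))
  have hclose : ∀ f : MvPolynomial ι R, (∀ x ∈ f.coeffs, x ∈
      (Finset.univ.biUnion fun j => (mapc ρ (P j)).coeffs) ∪
        (Finset.univ.biUnion fun f => (ft f).coeffs)) → ∀ w : ι → C, (∀ i, v (w i) ≤ 1) →
      v (aeval w (MvPolynomial.map (β : R →+* k) f) -
        aeval w (MvPolynomial.map (α : R →+* K) f)) ≤ min ε (min δ₁ δ₂) := by
    intro f hf w hw
    refine close_eval hv _ _ f (lt_min hε (lt_min hδ₁ hδ₂)).le (fun x hx => ?_) hw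
    have h4 := hc2 x (hf x hx)
    change v (algebraMap K C (algebraMap k K (β x) - α x)) ≤ _ at h4
    rw [map_sub, ← IsScalarTower.algebraMap_apply] at h4
    exact h4
  have hcP : ∀ j, ∀ w : ι → C, (∀ i, v (w i) ≤ 1) →
      v (aeval w (MvPolynomial.map (β : R →+* k) (mapc ρ (P j))) - aeval w (P j)) ≤
        min ε (min δ₁ δ₂) := by
    intro j w hw
    have h4 := hclose (mapc ρ (P j)) (fun x hx => Finset.mem_union_left _
      (Finset.mem_biUnion.2 ⟨j, Finset.mem_univ _, hx⟩)) w hw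
    rwa [hαP] at h4
  have hcf : ∀ f : F₀, ∀ w : ι → C, (∀ i, v (w i) ≤ 1) →
      v (aeval w (MvPolynomial.map (β : R →+* k) (ft f)) - aeval w f.1) ≤
        min ε (min δ₁ δ₂) := by
    intro f w hw
    have h4 := hclose (ft f) (fun x hx => Finset.mem_union_right _
      (Finset.mem_biUnion.2 ⟨f, Finset.mem_univ _, hx⟩)) w hw
    rwa [hαf] at h4
  have hsm : ∀ {x y : C}, v (x - y) ≤ min ε (min δ₁ δ₂) → x = 0 → v y ≤ min δ₁ δ₂ := by
    intro x y hxy hx
    rw [hx, zero_sub, AbsoluteValue.map_neg] at hxy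
    exact hxy.trans (min_le_right _ _)
  have hP' : ∀ j, (MvPolynomial.map (β : R →+* k) (mapc ρ (P j))).IsHomogeneous (D j) := fun j =>
    (hom_mapc hρ0 (hP j)).map _
  have hchar : CharZero k := (algebraMap k K).charZero
  refine ⟨fun j => MvPolynomial.map (β : R →+* k) (mapc ρ (P j)), hP', ?_, ?_, ?_, ?_⟩
  · refine dimGE_spec α β hc1 (fun j => mapc ρ (P j)) D hD (fun j => hom_mapc hρ0 (hP j)) ?_
    simp only [hαP]
    exact h1
  · refine ⟨q, hq, fun y hy hyq => ?_⟩
    by_contra hy0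
    obtain ⟨a, ha, ha1, i, hi⟩ := exists_normal' v hy0
    have h4 := hδ₁' (fun i => a * y i) ha1 (by
      rintro (j | j)
      · rw [Sum.elim_inl, eval_map_alg]
        refine (hsm (hcP j _ ha1) ?_).trans (min_le_left _ _)
        rw [smul_aeval (hP' j), hy j, mul_zero]
      · obtain ⟨D', -, hD'⟩ := hq j
        rw [Sum.elim_inr, eval_smul_of_homogeneous hD', hyq j, mul_zero, map_zero]
        exact hδ₁.le) i
    rw [hi] at h4
    norm_num at h4
  · intro y hy0 hy
    obtain ⟨a, ha, ha1, i, hi⟩ := exists_normal' v hy0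
    obtain ⟨f, hf'⟩ : ∃ f : F₀, aeval (fun i => a * y i)
        (MvPolynomial.map (β : R →+* k) (ft f)) ≠ 0 := by
      by_contra hno
      push Not at hno
      have h4 := hδ₂' (fun i => a * y i) ha1 (by
        rintro (j | f)
        · rw [Sum.elim_inl, eval_map_alg]
          refine (hsm (hcP j _ ha1) ?_).trans (min_le_right _ _)
          rw [smul_aeval (hP' j), hy j, mul_zero]
        · rw [Sum.elim_inr, eval_map_alg]
          exact (hsm (hcf f _ ha1) (hno f)).trans (min_le_right _ _)) i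
      rw [hi] at h4
      norm_num at h4
    have hft : MvPolynomial.map (β : R →+* k) (ft f) =
        MvPolynomial.map (β : R →+* k) (mapc ρ (h f)) *
          minor (fun j => MvPolynomial.map (β : R →+* k) (mapc ρ (P j))) (s f) (t f) := by
      rw [hft0, map_mul, map_minor]
    rw [hft, map_mul, smul_aeval ((hom_mapc hρ0 (he f)).map _), minor_smul hP'] at hf'
    refine ⟨s f, t f, e f, MvPolynomial.map (β : R →+* k) (mapc ρ (h f)),
      (hom_mapc hρ0 (he f)).map _, fun h4 => hf' ?_, fun h4 => hf' ?_, fun j => ?_⟩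
    · rw [h4, mul_zero, zero_mul]
    · rw [h4, mul_zero, mul_zero]
    · have h4 : MvPolynomial.map (β : R →+* k) (∑ i, mapc ρ (E' f j i) * mapc ρ (P (s f i)) -
          mapc ρ (h f) * mapc ρ (P j)) = 0 := by
        refine ker_transfer (α := (α : R →+* K)) hc1 ?_
        rw [map_sub, map_sum, map_mul, hαh, hαP, sub_eq_zero, ← hE' f j]
        exact Finset.sum_congr rfl fun i _ => by rw [map_mul, hαE, hαP]
      rw [map_sub, sub_eq_zero, map_mul, map_sum] at h4
      rw [← h4]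
      refine Ideal.sum_mem _ fun i _ => ?_
      rw [map_mul]
      exact Ideal.mul_mem_left _ _ (Ideal.subset_span ⟨i, rfl⟩)
  · exact fun w hw j => (hcP j w hw).trans (min_le_left _ _)

end Pool.Agent.Q221.NF
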