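import Pool.Agent.Q221.NF.Root

/-!
# Specialization to a dense algebraically closed subfield
-/

set_option autoImplicit false

open Polynomial

namespace Pool.Agent.Q221.NF

variable {K k : Type} [Field K] [Field k] [Algebra k K] {a : AbsoluteValue K ℝ}

theorem eval_cons {Ω : Type} [Field Ω] [Algebra k Ω] {M : ℕ} (s : Ω) (c : Fin M → Ω)
    (F : MvPolynomial (Fin (M + 1)) k) :
    MvPolynomial.aeval (Fin.cons s c : Fin (M + 1) → Ω) F =
      ((MvPolynomial.finSuccEquiv k M F).map
        (MvPolynomial.aeval c : MvPolynomial (Fin M) k →ₐ[k] Ω).toRingHom).eval s := by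
  have h : (MvPolynomial.aeval (Fin.cons s c : Fin (M + 1) → Ω) :
      MvPolynomial (Fin (M + 1)) k →ₐ[k] Ω).toRingHom =
      ((evalRingHom s).comp (mapRingHom
        (MvPolynomial.aeval c : MvPolynomial (Fin M) k →ₐ[k] Ω).toRingHom)).comp
        (MvPolynomial.finSuccEquiv k M).toRingEquiv.toRingHom := by
    refine MvPolynomial.ringHom_ext (fun r => ?_) fun i => ?_
    · change MvPolynomial.aeval (Fin.cons s c : Fin (M + 1) → Ω) (MvPolynomial.C r) =
        ((MvPolynomial.finSuccEquiv k M (MvPolynomial.C r)).map
          (MvPolynomial.aeval c : MvPolynomial (Fin M) k →ₐ[k] Ω).toRingHom).eval s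
      have h1 : MvPolynomial.finSuccEquiv k M (MvPolynomial.C r) = C (MvPolynomial.C r) :=
        (MvPolynomial.finSuccEquiv k M).commutes r
      rw [h1, map_C, eval_C]
      change _ = MvPolynomial.aeval c (MvPolynomial.C r)
      rw [MvPolynomial.aeval_C, MvPolynomial.aeval_C]
    · refine Fin.cases ?_ (fun j => ?_) i
      · change MvPolynomial.aeval (Fin.cons s c : Fin (M + 1) → Ω) (MvPolynomial.X 0) =
          ((MvPolynomial.finSuccEquiv k M (MvPolynomial.X 0)).map
            (MvPolynomial.aeval c : MvPolynomial (Fin M) k →ₐ[k] Ω).toRingHom).eval s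
        rw [MvPolynomial.finSuccEquiv_X_zero, map_X, eval_X, MvPolynomial.aeval_X, Fin.cons_zero]
      · change MvPolynomial.aeval (Fin.cons s c : Fin (M + 1) → Ω) (MvPolynomial.X j.succ) =
          ((MvPolynomial.finSuccEquiv k M (MvPolynomial.X j.succ)).map
            (MvPolynomial.aeval c : MvPolynomial (Fin M) k →ₐ[k] Ω).toRingHom).eval s
        rw [MvPolynomial.finSuccEquiv_X_succ, map_C, eval_C, MvPolynomial.aeval_X, Fin.cons_succ]
        exact (MvPolynomial.aeval_X _ _).symm
  exact congrArg (fun f => f F) h

section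

variable (ha : ∀ x y, a (x + y) ≤ max (a x) (a y))

include ha

/-- Polynomials are continuous. -/
theorem cont {σ : Type} (f : MvPolynomial σ k) (c : σ → K) {δ : ℝ} (hδ : 0 < δ) :
    ∃ η : ℝ, 0 < η ∧ ∀ c' : σ → K, (∀ i, a (c' i - c i) ≤ η) →
      a (MvPolynomial.aeval c' f - MvPolynomial.aeval c f) ≤ δ := by
  induction f using MvPolynomial.induction_on generalizing δ with
  | C r =>
    refine ⟨1, one_pos, fun c' _ => ?_⟩
    rw [MvPolynomial.aeval_C, MvPolynomial.aeval_C, sub_self, map_zero]
    exact hδ.le
  | add p q hp hq =>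
    obtain ⟨η₁, h₁, h₁'⟩ := hp hδ
    obtain ⟨η₂, h₂, h₂'⟩ := hq hδ
    refine ⟨min η₁ η₂, lt_min h₁ h₂, fun c' hc' => ?_⟩
    have h3 : MvPolynomial.aeval c' (p + q) - MvPolynomial.aeval c (p + q) =
        (MvPolynomial.aeval c' p - MvPolynomial.aeval c p) +
          (MvPolynomial.aeval c' q - MvPolynomial.aeval c q) := by
      rw [map_add, map_add]
      ring
    rw [h3]
    exact (ha _ _).trans (max_le (h₁' c' fun i => (hc' i).trans (min_le_left _ _))
      (h₂' c' fun i => (hc' i).trans (min_le_right _ _)))
  | mul_X p i hp =>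
    have hA := a.nonneg (MvPolynomial.aeval c p)
    have hS := a.nonneg (c i)
    obtain ⟨η₁, h₁, h₁'⟩ := hp (δ := δ / (1 + a (c i))) (by positivity)
    refine ⟨min (min η₁ 1) (δ / (1 + a (MvPolynomial.aeval c p))),
      lt_min (lt_min h₁ one_pos) (by positivity), fun c' hc' => ?_⟩
    have h3 : MvPolynomial.aeval c' (p * MvPolynomial.X i) -
        MvPolynomial.aeval c (p * MvPolynomial.X i) =
        (MvPolynomial.aeval c' p - MvPolynomial.aeval c p) * c' i +
          MvPolynomial.aeval c p * (c' i - c i) := by
      rw [map_mul, map_mul, MvPolynomial.aeval_X, MvPolynomial.aeval_X]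
      ring
    rw [h3]
    refine (ha _ _).trans (max_le ?_ ?_)
    · have h4 : a (c' i) ≤ 1 + a (c i) := by
        have h5 : c' i = (c' i - c i) + c i := by ring
        rw [h5]
        refine (ha _ _).trans (max_le ?_ (by linarith))
        exact (hc' i).trans ((min_le_left _ _).trans ((min_le_right _ _).trans (by linarith)))
      rw [map_mul]
      calc _ ≤ δ / (1 + a (c i)) * (1 + a (c i)) :=
            mul_le_mul (h₁' c' fun j => (hc' j).trans ((min_le_left _ _).trans (min_le_left _ _)))
              h4 (a.nonneg _) (by positivity)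
        _ = δ := by field_simp
    · rw [map_mul]
      calc _ ≤ (1 + a (MvPolynomial.aeval c p)) * (δ / (1 + a (MvPolynomial.aeval c p))) :=
            mul_le_mul (by linarith) ((hc' i).trans (min_le_right _ _)) (a.nonneg _) (by linarith)
        _ = δ := by field_simp

theorem specialize [CharZero K] (hcomp : IsCompleteFor a)
    (hdense : ∀ (x : K) (ε : ℝ), 0 < ε → ∃ y : k, a (algebraMap k K y - x) ≤ ε)
    (halg : ∀ x : K, IsAlgebraic k x → ∃ y : k, algebraMap k K y = x) :
    ∀ (M : ℕ) (c : Fin M → K) (ε : ℝ), 0 < ε → ∃ c' : Fin M → k,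
      (∀ i, a (algebraMap k K (c' i) - c i) ≤ ε) ∧
        ∀ F : MvPolynomial (Fin M) k, MvPolynomial.aeval c F = 0 →
          MvPolynomial.aeval c' F = 0 := by
  intro M
  induction M with
  | zero =>
    intro c ε hε
    refine ⟨Fin.elim0, fun i => i.elim0, fun F hF => ?_⟩
    obtain ⟨r, rfl⟩ := MvPolynomial.C_surjective (Fin 0) F
    rw [MvPolynomial.aeval_C] at hF ⊢
    rw [(map_eq_zero _).1 hF, map_zero]
  | succ M ih =>
    intro c₀ ε hε
    obtain ⟨s, c, rfl⟩ : ∃ (s : K) (c : Fin M → K), c₀ = Fin.cons s c :=
      ⟨c₀ 0, Fin.tail c₀, (Fin.cons_self_tail c₀).symm⟩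
    set φ : MvPolynomial (Fin M) k →+* K :=
      (MvPolynomial.aeval c : MvPolynomial (Fin M) k →ₐ[k] K).toRingHom with hφ
    by_cases hA : ∀ G : (MvPolynomial (Fin M) k)[X], (G.map φ).eval s = 0 → G.map φ = 0
    · obtain ⟨c', h1, h2⟩ := ih c ε hε
      obtain ⟨s', hs'⟩ := hdense s ε hε
      refine ⟨Fin.cons s' c', fun i => ?_, fun F hF => ?_⟩
      · refine Fin.cases ?_ (fun j => ?_) i
        · simpa using hs'
        · simpa using h1 j
      · rw [eval_cons] at hF ⊢
        have h3 := hA _ hF
        have h4 : (MvPolynomial.finSuccEquiv k M F).map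
            (MvPolynomial.aeval c' : MvPolynomial (Fin M) k →ₐ[k] k).toRingHom = 0 := by
          ext j
          rw [coeff_map, coeff_zero]
          refine h2 _ ?_
          have h5 := congrArg (fun q => q.coeff j) h3
          simp only [coeff_map, coeff_zero] at h5
          exact h5
        rw [h4, eval_zero]
    · push Not at hA
      -- a polynomial of minimal degree
      have hex : ∃ n, ∃ G : (MvPolynomial (Fin M) k)[X], G.natDegree = n ∧
          (G.map φ).eval s = 0 ∧ G.map φ ≠ 0 := by
        obtain ⟨G, hG⟩ := hA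
        exact ⟨_, G, rfl, hG⟩
      classical
      set n := Nat.find hex with hn
      obtain ⟨G, hGn, hG0, hG1⟩ := Nat.find_spec hex
      rw [← hn] at hGn
      have hmin : ∀ H : (MvPolynomial (Fin M) k)[X], H.natDegree < n → (H.map φ).eval s = 0 →
          H.map φ = 0 := by
        intro H hH hH0
        by_contra hne
        exact Nat.find_min hex hH ⟨H, rfl, hH0, hne⟩
      have hn1 : n ≠ 0 := by
        intro h0
        rw [h0] at hGn
        obtain ⟨g, rfl⟩ := natDegree_eq_zero.1 hGn
        rw [map_C, eval_C] at hG0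
        rw [map_C, hG0, C_0] at hG1
        exact hG1 rfl
      have hlc : φ G.leadingCoeff ≠ 0 := by
        intro h0
        have h1 : G.eraseLead.map φ = G.map φ := by
          conv_rhs => rw [← eraseLead_add_monomial_natDegree_leadingCoeff G]
          rw [Polynomial.map_add, map_monomial, h0, monomial_zero_right, add_zero]
        have h2 : G.eraseLead.natDegree < n := by
          have := eraseLead_natDegree_le G
          omega
        refine hG1 ?_
        rw [← h1]
        exact hmin _ h2 (by rw [h1]; exact hG0)
      have hdeg : (G.map φ).natDegree = n := by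
        rw [natDegree_map_of_leadingCoeff_ne_zero φ hlc, hGn]
      have hder : (derivative (G.map φ)).eval s ≠ 0 := by
        intro h0
        rw [derivative_map] at h0
        have h1 := hmin (derivative G) (by
          have := natDegree_derivative_lt (p := G) (by omega)
          omega) h0
        rw [← derivative_map] at h1
        have h2 := derivative_eq_zero.1 h1
        omega
      obtain ⟨δ, hδ, hroot⟩ := root_near ha hcomp (n := n) hdeg.le hG0 hder hε
      have hcoef : ∀ j : Fin (n + 1), ∃ η : ℝ, 0 < η ∧ ∀ c' : Fin M → K,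
          (∀ i, a (c' i - c i) ≤ η) → a (MvPolynomial.aeval c' (G.coeff j) -
            MvPolynomial.aeval c (G.coeff j)) ≤ δ := fun j => cont ha _ _ hδ
      choose η hη hη' using hcoef
      have hlc' : 0 < a (φ G.leadingCoeff) := a.pos hlc
      obtain ⟨η₁, hη₁, hη₁'⟩ := cont ha G.leadingCoeff c (half_pos hlc')
      obtain ⟨η₂, hη₂, hη₂'⟩ : ∃ η₂ : ℝ, 0 < η₂ ∧ ∀ j, η₂ ≤ η j := by
        have hne : (Finset.univ : Finset (Fin (n + 1))).Nonempty := Finset.univ_nonempty
        exact ⟨Finset.univ.inf' hne η, (Finset.lt_inf'_iff hne).2 fun j _ => hη j,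
          fun j => Finset.inf'_le _ (Finset.mem_univ j)⟩
      obtain ⟨c', h1, h2⟩ := ih c (min ε (min η₁ η₂)) (lt_min hε (lt_min hη₁ hη₂))
      set ψ : MvPolynomial (Fin M) k →+* k :=
        (MvPolynomial.aeval c' : MvPolynomial (Fin M) k →ₐ[k] k).toRingHom with hψ
      have hφψ : ∀ f : MvPolynomial (Fin M) k, algebraMap k K (ψ f) =
          MvPolynomial.aeval (fun i => algebraMap k K (c' i)) f := fun f =>
        (MvPolynomial.aeval_algebraMap_apply K c' f).symm
      have hlcψ : ψ G.leadingCoeff ≠ 0 := by
        intro h0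
        have h3 := hη₁' (fun i => algebraMap k K (c' i)) fun i =>
          (h1 i).trans ((min_le_right _ _).trans (min_le_left _ _))
        rw [← hφψ, h0, map_zero, zero_sub, AbsoluteValue.map_neg] at h3
        have h4 : a (φ G.leadingCoeff) ≤ a (φ G.leadingCoeff) / 2 := h3
        linarith
      have hGψ : G.map ψ ≠ 0 := by
        intro h0
        refine hlcψ ?_
        have h3 := congrArg (fun q => q.coeff G.natDegree) h0
        simp only [coeff_map, coeff_zero] at h3
        exact h3
      obtain ⟨t, ht0, ht1⟩ := hroot ((G.map ψ).map (algebraMap k K))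
        ((natDegree_map_le).trans ((natDegree_map_le).trans hGn.le)) (fun j => by
          rw [coeff_map, coeff_map, coeff_map]
          rcases Nat.lt_or_ge n j with hj | hj
          · rw [coeff_eq_zero_of_natDegree_lt (by omega), map_zero, map_zero, map_zero, sub_zero,
              map_zero]
            exact hδ.le
          · rw [hφψ]
            exact hη' ⟨j, by omega⟩ _ fun i =>
              (h1 i).trans ((min_le_right _ _).trans ((min_le_right _ _).trans (hη₂' _))))
      obtain ⟨s', rfl⟩ := halg t ⟨G.map ψ, hGψ, by rw [aeval_def, eval₂_eq_eval_map]; exact ht0⟩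
      have hs' : (G.map ψ).eval s' = 0 := by
        apply (algebraMap k K).injective
        rw [map_zero, ← ht0, eval_map (algebraMap k K), eval₂_at_apply]
      have hsmall : ∀ H : (MvPolynomial (Fin M) k)[X], H.natDegree < n →
          (H.map φ).eval s = 0 → (H.map ψ).eval s' = 0 := by
        intro H hH hH0
        have h3 := hmin H hH hH0
        have h4 : H.map ψ = 0 := by
          ext j
          rw [coeff_map, coeff_zero]
          refine h2 _ ?_
          have h5 := congrArg (fun q => q.coeff j) h3
          simp only [coeff_map, coeff_zero] at h5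
          exact h5
        rw [h4, eval_zero]
      have hall : ∀ (m : ℕ) (H : (MvPolynomial (Fin M) k)[X]), H.natDegree ≤ m →
          (H.map φ).eval s = 0 → (H.map ψ).eval s' = 0 := by
        intro m
        induction m with
        | zero => exact fun H hH => hsmall H (by omega)
        | succ m ihm =>
          intro H hH hH0
          rcases Nat.lt_or_ge H.natDegree n with h3 | h3
          · exact hsmall H h3 hH0
          · set H₁ : (MvPolynomial (Fin M) k)[X] :=
              C G.leadingCoeff * H - C (H.coeff (m + 1)) * (G * X ^ (m + 1 - n)) with hH₁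
            have h4 : H₁.natDegree ≤ m := by
              rw [natDegree_le_iff_coeff_eq_zero]
              intro N hN
              rw [hH₁, coeff_sub, coeff_C_mul, coeff_C_mul]
              rcases Nat.lt_or_ge (m + 1) N with h5 | h5
              · rw [coeff_eq_zero_of_natDegree_lt (p := H) (by omega),
                  coeff_eq_zero_of_natDegree_lt (p := G * X ^ (m + 1 - n)), mul_zero, mul_zero,
                  sub_zero]
                refine lt_of_le_of_lt (natDegree_mul_le.trans (Nat.add_le_add_left
                  (natDegree_X_pow_le _) _)) (by omega)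
              · obtain rfl : N = m + 1 := by omega
                have h6 : (G * X ^ (m + 1 - n)).coeff (m + 1) = G.leadingCoeff := by
                  have h7 : m + 1 = n + (m + 1 - n) := by omega
                  conv_lhs => rw [h7]
                  have h8 : n + (m + 1 - n) - n = m + 1 - n := by omega
                  rw [h8, coeff_mul_X_pow, leadingCoeff, hGn]
                rw [h6]
                ring
            have h5 := ihm H₁ h4 (by
              rw [hH₁]
              simp only [Polynomial.map_sub, Polynomial.map_mul, Polynomial.eval_sub, eval_mul,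
                hH0, hG0, mul_zero, zero_mul, sub_zero, map_C, eval_C])
            rw [hH₁] at h5
            simp only [Polynomial.map_sub, Polynomial.map_mul, Polynomial.eval_sub, eval_mul, hs',
              mul_zero, zero_mul, sub_zero, map_C, eval_C] at h5
            exact (mul_eq_zero.1 h5).resolve_left hlcψ
      refine ⟨Fin.cons s' c', fun i => ?_, fun F hF => ?_⟩
      · refine Fin.cases ?_ (fun j => ?_) i
        · simpa using ht1
        · simpa using (h1 j).trans (min_le_left _ _)
      · rw [eval_cons] at hF ⊢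
        exact hall _ _ le_rfl hF

/-- The specialization lemma. -/
theorem exists_spec [CharZero K] (hcomp : IsCompleteFor a)
    (hdense : ∀ (x : K) (ε : ℝ), 0 < ε → ∃ y : k, a (algebraMap k K y - x) ≤ ε)
    (halg : ∀ x : K, IsAlgebraic k x → ∃ y : k, algebraMap k K y = x) (S : Finset K) :
    ∃ (M : ℕ) (c : Fin M → K) (ρ : K → MvPolynomial (Fin M) k),
      ρ 0 = 0 ∧ (∀ x ∈ S, MvPolynomial.aeval c (ρ x) = x) ∧
        ∀ (T : Finset (MvPolynomial (Fin M) k)) (ε : ℝ), 0 < ε → ∃ c' : Fin M → k,
          (∀ F : MvPolynomial (Fin M) k, MvPolynomial.aeval c F = 0 →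
            MvPolynomial.aeval c' F = 0) ∧
          ∀ F ∈ T, a (algebraMap k K (MvPolynomial.aeval c' F) - MvPolynomial.aeval c F) ≤ ε := by
  classical
  refine ⟨S.card, fun i => (S.equivFin.symm i : K),
    fun x => if h : x ∈ S ∧ x ≠ 0 then MvPolynomial.X (S.equivFin ⟨x, h.1⟩) else 0, ?_, ?_, ?_⟩
  · simp
  · intro x hx
    by_cases h0 : x = 0
    · simp [h0]
    · simp [hx, h0]
  · intro T ε hε
    choose η hη hη' using fun F : MvPolynomial (Fin S.card) k =>
      cont ha F (fun i => (S.equivFin.symm i : K)) hε
    obtain ⟨η₂, hη₂, hη₂'⟩ : ∃ η₂ : ℝ, 0 < η₂ ∧ ∀ F ∈ T, η₂ ≤ η F := by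
      rcases T.eq_empty_or_nonempty with rfl | hne
      · exact ⟨1, one_pos, fun F hF => absurd hF (Finset.notMem_empty F)⟩
      · exact ⟨T.inf' hne η, (Finset.lt_inf'_iff hne).2 fun j _ => hη j,
          fun j hj => Finset.inf'_le _ hj⟩
    obtain ⟨c', h1, h2⟩ := specialize ha hcomp hdense halg S.card
      (fun i => (S.equivFin.symm i : K)) η₂ hη₂
    refine ⟨c', h2, fun F hF => ?_⟩
    rw [← MvPolynomial.aeval_algebraMap_apply]
    exact hη' F _ fun i => (h1 i).trans (hη₂' F hF)

end

end Pool.Agent.Q221.NF
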